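import Pool.Agent.R183.PL.E3

/-!
# The threshold exponent of the point-line Maker-Breaker game

The game, winning line segments, `τ_n` and Maker wins are defined in
`Pool/Agent/R183/PL/Game.lean`.
-/

namespace Pool.Agent.Results.MP_a77be0_co.BetaCZero

open Pool.Agent.R183.PL

/-- The threshold exponent `β_c(α)`: the supremum of the real numbers `β ≥ 0` for which the game
with `m(t) = t^α` and `b(t) = t^β` is a Maker win, where `t^α` is rounded to an integer by `ρ`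
and `t^β` by `ρ'`. -/
noncomputable def betaC (ρ ρ' : ℝ → ℕ) (α : ℝ) : ENNReal :=
  sSup {x | ∃ β : ℝ, 0 ≤ β ∧ x = ENNReal.ofReal β ∧
    MakerWin (fun t => ρ ((t : ℝ) ^ α)) (fun t => ρ' ((t : ℝ) ^ β))}

/-- For every rounding convention `β_c(α) = 0` for all `α > 0`; in particular `β_c` is monotone
decreasing on `[0, ∞)`. -/
theorem result (ρ ρ' : ℝ → ℕ) (hρ : ∀ x : ℝ, 0 ≤ x → |(ρ x : ℝ) - x| ≤ 1)
    (hρ' : ∀ x : ℝ, 0 ≤ x → |(ρ' x : ℝ) - x| ≤ 1) :
    (∀ α₁ α₂ : ℝ, 0 ≤ α₁ → α₁ < α₂ → betaC ρ ρ' α₂ ≤ betaC ρ ρ' α₁) ∧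
      ∀ α : ℝ, 0 < α → betaC ρ ρ' α = 0 := by
  have key : ∀ α : ℝ, 0 < α → betaC ρ ρ' α = 0 := by
    intro α hα
    unfold betaC
    refine le_antisymm (sSup_le ?_) (by simp)
    rintro x ⟨β, hβ, rfl, hwin⟩
    rcases hβ.eq_or_lt with h0 | h0
    · rw [← h0]
      simp
    · exfalso
      exact not_makerWin α β hα h0 _ _
        (fun t => hρ _ (Real.rpow_nonneg (Nat.cast_nonneg t) α))
        (fun t => hρ' _ (Real.rpow_nonneg (Nat.cast_nonneg t) β)) hwin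
  refine ⟨fun α₁ α₂ h1 h2 => ?_, key⟩
  rw [key α₂ (lt_of_le_of_lt h1 h2)]
  simp

end Pool.Agent.Results.MP_a77be0_co.BetaCZero
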